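import Pool.Agent.H99.MH

set_option autoImplicit false

open Filter Topology Complex Set

namespace Pool.Agent.Results.MP_653b50_an.NoRestrictedFatou

/-- `U`, the product of `n` upper half-planes -/
def U (n : ℕ) : Set (Fin n → ℂ) := {z | ∀ j, 0 < (z j).im}

/-- harmonic in each variable separately on `U` -/
def MultiplyHarmonic {n : ℕ} (u : (Fin n → ℂ) → ℝ) : Prop :=
  ∀ z ∈ U n, ∀ j, InnerProductSpace.HarmonicOnNhd (fun w => u (Function.update z j w))
    {w : ℂ | 0 < w.im}

/-- the product cone at the boundary point `x` -/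
def cone {n : ℕ} (x : Fin n → ℝ) : Set (Fin n → ℂ) :=
  {z | z ∈ U n ∧ ∀ j, |(z j).re - x j| < (z j).im}

/-- the region of comparable heights -/
def R (n : ℕ) (c₁ c₂ : ℝ) : Set (Fin n → ℂ) :=
  {z | z ∈ U n ∧ ∀ j k, j < k → c₁ ≤ (z j).im / (z k).im ∧ (z j).im / (z k).im ≤ c₂}

open Pool.Agent.H99.MH in
theorem result (n : ℕ) (hn : 2 ≤ n) (c₁ c₂ : ℝ) (h₁ : 0 < c₁) (hR : (R n c₁ c₂).Nonempty) :
    ∃ u : (Fin n → ℂ) → ℝ, MultiplyHarmonic u ∧ (∃ C, ∀ z ∈ R n c₁ c₂, |u z| ≤ C) ∧
      ∀ x : Fin n → ℝ, ¬ ∃ l, Tendsto u (𝓝[cone x ∩ R n c₁ c₂] fun j => (x j : ℂ)) (𝓝 l) := by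
  set i : Fin n := ⟨0, by omega⟩
  set m : Fin n := ⟨1, by omega⟩
  have him : i < m := Nat.zero_lt_one
  have key : ∀ z : Fin n → ℂ, 0 < (z i).im →
      |(z m).im * (g (z i)).re| = |(z m).im| / (z i).im * |H (z i)| := fun z hz => by
    rw [H, abs_mul, abs_mul, abs_of_pos hz]; field_simp
  refine ⟨fun z => (z m).im * (g (z i)).re, fun z hz j w hw => ?_, ⟨2 / c₁, fun z hz => ?_⟩,
    fun x ⟨l, hl⟩ => ?_⟩
  · by_cases hi : j = i
    · subst hi
      simp only [Function.update_self, Function.update_of_ne him.ne']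
      exact (g_an hw).harmonicAt_re.const_smul (c := (z m).im)
    · by_cases hm : j = m
      · subst hm
        simp only [Function.update_self, Function.update_of_ne him.ne, mul_comm _ (g (z i)).re]
        exact (analyticAt_id.harmonicAt_im (x := w)).const_smul (c := (g (z i)).re)
      · simp only [Function.update_of_ne (Ne.symm hi), Function.update_of_ne (Ne.symm hm)]
        exact InnerProductSpace.harmonicAt_const _
  · have a1 := hz.1 i
    have a2 := hz.1 m
    have a3 := (le_div_iff₀ a2).1 (hz.2 i m him).1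
    have a4 : (z m).im / (z i).im ≤ 1 / c₁ := by rw [div_le_div_iff₀ a1 h₁]; linarith
    rw [key z a1, abs_of_pos a2, show 2 / c₁ = 1 / c₁ * 2 by ring]
    exact mul_le_mul a4 (H_bdd a1) (abs_nonneg _) (by positivity)
  · obtain ⟨p, hp, hq⟩ := hR
    have p0 := hp i
    have p1 := hp m
    have xt : Tendsto (fun k => ((xi k)⁻¹ : ℝ)) atTop (𝓝 0) :=
      tendsto_inv_atTop_zero.comp (tendsto_pow_atTop_atTop_of_one_lt (by norm_num))
    have main : ∀ r q : ℝ, 0 < r → |q| < r → Tendsto (fun k => (p m).im / (p i).im *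
        |H ⟨x i + q / xi k, r / xi k⟩|) atTop (𝓝 |l|) := by
      intro r q hr hqr
      let Z : ℕ → Fin n → ℂ := fun k j =>
        ⟨x j + (if j = i then q else 0) / xi k, r * ((p j).im / (p i).im) / xi k⟩
      have ZU : ∀ k, Z k ∈ U n := fun k j => by
        have := hp j; have := xi_pos k; simp only [Z]; positivity
      have hZ : Tendsto Z atTop (𝓝[cone x ∩ R n c₁ c₂] fun j => (x j : ℂ)) := by
        refine tendsto_nhdsWithin_iff.2 ⟨tendsto_pi_nhds.2 fun j => ?_,
          Eventually.of_forall fun k => ⟨⟨ZU k, fun j => ?_⟩, ZU k, fun j j' h => ?_⟩⟩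
        · have := ((continuous_ofReal.tendsto 0).comp xt).const_mul
            (((if j = i then q else 0 : ℝ) : ℂ) + ((r * ((p j).im / (p i).im) : ℝ) : ℂ) * I)
          have := this.const_add (x j : ℂ)
          simp only [ofReal_zero, mul_zero, add_zero] at this
          refine this.congr fun k => ?_
          apply Complex.ext <;> simp only [Z, Function.comp, add_re, add_im, mul_re, mul_im,
            ofReal_re, ofReal_im, I_re, I_im] <;> ring
        · have := xi_pos k
          have := ZU k j
          simp only [Z, add_sub_cancel_left] at this ⊢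
          split_ifs with h
          · rw [h, div_self p0.ne', mul_one, abs_div, abs_of_pos (xi_pos k)]; gcongr
          · simpa using this
        · have e : (Z k j).im / (Z k j').im = (p j).im / (p j').im := by
            have := xi_pos k; have := hp j'; simp only [Z]; field_simp
          rw [e]; exact hq j j' h
      refine (hl.comp hZ).abs.congr fun k => ?_
      have e : Z k i = ⟨x i + q / xi k, r / xi k⟩ := by simp [Z, p0.ne']
      have := xi_pos k
      simp only [Function.comp]
      rw [key _ (ZU k i), abs_of_pos (ZU k m), ← e]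
      congr 1
      simp only [Z]; field_simp
    have kp : 0 < (p m).im / (p i).im := div_pos p1 p0
    have b1 := le_of_tendsto' (main (1 / 100) 0 (by norm_num) (by norm_num))
      (b := (p m).im / (p i).im * 0.05) fun k => mul_le_mul_of_nonneg_left (H_small k rfl) kp.le
    have b2 := ge_of_tendsto' ((main 1 0 one_pos (by norm_num)).add
      (main 1 (1 / 2) one_pos (by norm_num [abs_of_pos]))) (b := (p m).im / (p i).im * 0.15) fun k => by
        rw [← mul_add]
        exact mul_le_mul_of_nonneg_left (H_big k rfl rfl (by simp)) kp.le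
    nlinarith

end Pool.Agent.Results.MP_653b50_an.NoRestrictedFatou
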